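import Pool.Agent.Helper25.LS.Defs

/-!
# Project LS, packet MC: the main estimate, second part
-/

set_option autoImplicit false

open Filter Topology Module

noncomputable section

namespace Pool.Agent.Helper40.LS

open Pool.Agent.Helper25.LS

/-- Expansion along an orthonormal family. -/
theorem expand {H : Type} [NormedAddCommGroup H] [InnerProductSpace ℂ H] {m : ℕ}
    {e : Fin m → H} (he : Orthonormal ℂ e) {v : H} (hv : v ∈ Submodule.span ℂ (Set.range e)) :
    ∑ k, inner ℂ (e k) v • e k = v := by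
  induction hv using Submodule.span_induction with
  | mem x hx =>
    obtain ⟨l, rfl⟩ := hx
    rw [Finset.sum_eq_single l]
    · rw [inner_self_eq_norm_sq_to_K, he.1 l]
      simp
    · intro k _ hk
      rw [he.2 hk, zero_smul]
    · intro h
      exact absurd (Finset.mem_univ _) h
  | zero => simp
  | add x y _ _ hx hy =>
    conv_rhs => rw [← hx, ← hy]
    rw [← Finset.sum_add_distrib]
    refine Finset.sum_congr rfl fun k _ => ?_
    rw [inner_add_right, add_smul]
  | smul a x _ hx =>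
    conv_rhs => rw [← hx]
    rw [Finset.smul_sum]
    refine Finset.sum_congr rfl fun k _ => ?_
    rw [inner_smul_right, mul_smul]

theorem orth_span {H : Type} [NormedAddCommGroup H] [InnerProductSpace ℂ H] {m : ℕ}
    {e : Fin m → H} {u : H} (hu : ∀ k, inner ℂ (e k) u = 0) {v : H}
    (hv : v ∈ Submodule.span ℂ (Set.range e)) : inner ℂ v u = 0 := by
  induction hv using Submodule.span_induction with
  | mem x hx =>
    obtain ⟨l, rfl⟩ := hx
    exact hu l
  | zero => simp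
  | add x y _ _ hx hy => rw [inner_add_left, hx, hy, add_zero]
  | smul a x _ hx => rw [inner_smul_left, hx, mul_zero]

section rep

variable {X : ℕ → Type} [∀ j, NormedAddCommGroup (X j)] [∀ j, NormedSpace ℂ (X j)] (P : Rep X)

theorem s_nonneg (j i : ℕ) : 0 ≤ P.s j i := (norm_nonneg _).trans (P.hx j i)

theorem s_sq_le (j i : ℕ) : P.s j i ^ 2 ≤ P.R :=
  ((P.hs j).le_tsum i fun _ _ => sq_nonneg _).trans (P.hR j)

theorem R_nonneg : 0 ≤ P.R := (sq_nonneg _).trans (s_sq_le P 0 0)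

theorem s_le (j i : ℕ) : P.s j i ≤ Real.sqrt P.R := Real.le_sqrt_of_sq_le (s_sq_le P j i)

theorem fx_le (j i : ℕ) (v : X j) : ‖P.f j i v • P.x j i‖ ≤ ‖v‖ * P.s j i ^ 2 := by
  rw [norm_smul]
  have h1 : ‖P.f j i v‖ ≤ P.s j i * ‖v‖ :=
    ((P.f j i).le_opNorm v).trans (mul_le_mul_of_nonneg_right (P.hf j i) (norm_nonneg _))
  calc ‖P.f j i v‖ * ‖P.x j i‖ ≤ (P.s j i * ‖v‖) * P.s j i :=
        mul_le_mul h1 (P.hx j i) (norm_nonneg _) (mul_nonneg (s_nonneg P j i) (norm_nonneg _))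
    _ = _ := by ring

theorem summ [∀ j, CompleteSpace (X j)] (j : ℕ) (v : X j) :
    Summable fun i => P.f j i v • P.x j i :=
  Summable.of_norm_bounded ((P.hs j).mul_left ‖v‖) (fx_le P j · v)

theorem norm_tsum [∀ j, CompleteSpace (X j)] (j : ℕ) (v : X j) :
    ‖∑' i, P.f j i v • P.x j i‖ ≤ ‖v‖ * P.R := by
  refine (tsum_of_norm_bounded ((P.hs j).mul_left ‖v‖).hasSum (fx_le P j · v)).trans ?_
  rw [tsum_mul_left]
  exact mul_le_mul_of_nonneg_left (P.hR j) (norm_nonneg _)

end rep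

theorem tail_num (s a t : ℝ) (hs : 0 ≤ s) (ha : a ≤ (1 + 1 / 100) * s + 2 * Real.sqrt t)
    (ht : 0 ≤ t) : s * a ≤ (103 / 100) * s ^ 2 + 50 * t := by
  have h1 : s * a ≤ s * ((1 + 1 / 100) * s + 2 * Real.sqrt t) := mul_le_mul_of_nonneg_left ha hs
  have h2 : Real.sqrt t ^ 2 = t := Real.sq_sqrt ht
  nlinarith [sq_nonneg (s / 50 - Real.sqrt t)]

/-- MC: the main estimate, second part. -/
theorem mc (h1 : S_LI) (h2 : S_EG) (h3 : S_PE) : S_MC := by
  intro X _ _ _ U Y _ _ D H _ _ _ Φ C P T hΦ hT hhead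
  classical
  obtain ⟨L⟩ := h1 X U Y D H Φ
  obtain ⟨E₁, hE₁, hE⟩ := h2 X U Y D H Φ L C P hΦ (1 / 10000) (by norm_num)
  -- the vectors of the head
  have hbx : ∀ i, Memℓp (fun j => P.x j i) ⊤ := by
    intro i
    refine memℓp_infty ⟨Real.sqrt P.R, ?_⟩
    rintro _ ⟨j, rfl⟩
    exact (P.hx j i).trans (s_le P j i)
  let xi : ℕ → lp X ⊤ := fun i => ⟨fun j => P.x j i, hbx i⟩
  let E₂ : Submodule ℂ H := Submodule.span ℂ
    ((fun i => Φ (D.π (xi i))) '' (Finset.range P.N : Set ℕ))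
  have hE₂ : FiniteDimensional ℂ E₂ :=
    FiniteDimensional.span_of_finite ℂ ((Finset.finite_toSet _).image _)
  refine ⟨E₁ ⊔ E₂, inferInstance, ?_⟩
  intro m e he hle
  have hle1 : E₁ ≤ Submodule.span ℂ (Set.range e) := le_sup_left.trans hle
  have hle2 : E₂ ≤ Submodule.span ℂ (Set.range e) := le_sup_right.trans hle
  -- the finite rank maps
  let Pj : ∀ j, X j → X j := fun j x => ∑ k, L.τ (e k) j x • L.σ (e k) j
  -- the images of the lifts
  have hbw : ∀ k, Memℓp (fun j => ∑' i, P.f j i (L.σ (e k) j) • P.x j i) ⊤ := by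
    intro k
    refine memℓp_infty ⟨‖Φ.symm (e k)‖ * P.R, ?_⟩
    rintro _ ⟨j, rfl⟩
    exact (norm_tsum P j _).trans (mul_le_mul_of_nonneg_right (L.bσ (e k) j) (R_nonneg P))
  let w : Fin m → lp X ⊤ := fun k => ⟨fun j => ∑' i, P.f j i (L.σ (e k) j) • P.x j i, hbw k⟩
  have hTw : ∀ k, T (D.π (L.σ (e k))) = D.π (w k) := fun k => hT _ _ fun j => rfl
  -- the limit
  have hlim : Tendsto (fun j => ∑ k, L.τ (e k) j (w k j)) (U : Filter ℕ)
      (𝓝 (∑ k, inner ℂ (e k) (((Φ : Y →L[ℂ] H) ∘L T ∘L (Φ.symm : H →L[ℂ] Y)) (e k)))) := by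
    refine tendsto_finsetSum _ fun k _ => ?_
    have h4 := L.hτ (e k) (w k)
    rw [← hTw k, L.hσ] at h4
    exact h4
  -- rewriting
  have hsumk : ∀ j k, Summable fun i => P.f j i (L.σ (e k) j) * L.τ (e k) j (P.x j i) := by
    intro j k
    have h5 := (summ P j (L.σ (e k) j)).map (L.τ (e k) j) (L.τ (e k) j).continuous
    refine h5.congr fun i => ?_
    simp [Function.comp]
  have hz : ∀ j, ∑ k, L.τ (e k) j (w k j) = ∑' i, P.f j i (Pj j (P.x j i)) := by
    intro j
    have h6 : ∀ k, L.τ (e k) j (w k j) =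
        ∑' i, P.f j i (L.σ (e k) j) * L.τ (e k) j (P.x j i) := by
      intro k
      have h7 : (w k : ∀ j, X j) j = ∑' i, P.f j i (L.σ (e k) j) • P.x j i := rfl
      rw [h7, (L.τ (e k) j).map_tsum (summ P j (L.σ (e k) j))]
      refine tsum_congr fun i => ?_
      rw [map_smul, smul_eq_mul]
    simp_rw [h6]
    rw [← Summable.tsum_finsetSum fun k _ => hsumk j k]
    refine tsum_congr fun i => ?_
    show _ = P.f j i (∑ k, L.τ (e k) j (P.x j i) • L.σ (e k) j)
    rw [map_sum]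
    refine Finset.sum_congr rfl fun k _ => ?_
    rw [map_smul, smul_eq_mul, mul_comm]
  have hsumP : ∀ j, Summable fun i => P.f j i (Pj j (P.x j i)) := by
    intro j
    have h8 : Summable fun i => ∑ k, P.f j i (L.σ (e k) j) * L.τ (e k) j (P.x j i) :=
      summable_sum fun k _ => hsumk j k
    refine h8.congr fun i => ?_
    show _ = P.f j i (∑ k, L.τ (e k) j (P.x j i) • L.σ (e k) j)
    rw [map_sum]
    refine Finset.sum_congr rfl fun k _ => ?_
    rw [map_smul, smul_eq_mul, mul_comm]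
  -- the head
  have hhd : ∀ i ∈ Finset.range P.N,
      Tendsto (fun j => ‖Pj j (P.x j i) - P.x j i‖) (U : Filter ℕ) (𝓝 0) := by
    intro i hi
    set c : Fin m → ℂ := fun k => inner ℂ (e k) (Φ (D.π (xi i))) with hc
    have hτ : ∀ k, Tendsto (fun j => L.τ (e k) j (P.x j i)) (U : Filter ℕ) (𝓝 (c k)) :=
      fun k => L.hτ (e k) (xi i)
    have hin : Φ (D.π (xi i)) ∈ Submodule.span ℂ (Set.range e) :=
      hle2 (Submodule.subset_span ⟨i, by simpa using hi, rfl⟩)
    have hπ : D.π (∑ k, c k • L.σ (e k) - xi i) = 0 := by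
      rw [map_sub, map_sum]
      have h9 : ∑ k, D.π (c k • L.σ (e k)) = D.π (xi i) := by
        have h10 : ∑ k, D.π (c k • L.σ (e k)) = Φ.symm (∑ k, c k • e k) := by
          rw [map_sum]
          refine Finset.sum_congr rfl fun k _ => ?_
          rw [map_smul, map_smul, L.hσ]
        rw [h10, hc, expand he hin, Φ.symm_apply_apply]
      rw [h9, sub_self]
    have hl0 : Tendsto (fun j => ‖(∑ k, c k • L.σ (e k) - xi i : lp X ⊤) j‖) (U : Filter ℕ)
        (𝓝 0) := by
      have := D.lim (∑ k, c k • L.σ (e k) - xi i)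
      rwa [hπ, norm_zero] at this
    have hl1 : Tendsto (fun j => ∑ k, ‖L.τ (e k) j (P.x j i) - c k‖ * ‖Φ.symm (e k)‖)
        (U : Filter ℕ) (𝓝 0) := by
      have h11 : Tendsto (fun j => ∑ k, ‖L.τ (e k) j (P.x j i) - c k‖ * ‖Φ.symm (e k)‖)
          (U : Filter ℕ) (𝓝 (∑ k : Fin m, ‖c k - c k‖ * ‖Φ.symm (e k)‖)) :=
        tendsto_finsetSum _ fun k _ => (((hτ k).sub_const (c k)).norm).mul_const _
      simpa using h11
    have hl2 := hl1.add hl0
    rw [add_zero] at hl2
    refine squeeze_zero (fun j => norm_nonneg _) (fun j => ?_) hl2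
    have h12 : (∑ k, c k • L.σ (e k) - xi i : lp X ⊤) j =
        ∑ k, c k • L.σ (e k) j - P.x j i := by
      rw [lp.coeFn_sub, Pi.sub_apply]
      congr 1
      rw [lp.coeFn_sum, Finset.sum_apply]
      refine Finset.sum_congr rfl fun k _ => ?_
      rw [lp.coeFn_smul, Pi.smul_apply]
    rw [h12]
    have h13 : Pj j (P.x j i) - P.x j i =
        ∑ k, (L.τ (e k) j (P.x j i) - c k) • L.σ (e k) j +
          (∑ k, c k • L.σ (e k) j - P.x j i) := by
      have h14 : Pj j (P.x j i) = ∑ k, L.τ (e k) j (P.x j i) • L.σ (e k) j := rfl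
      rw [h14]
      simp_rw [sub_smul]
      rw [Finset.sum_sub_distrib]
      abel
    rw [h13]
    refine (norm_add_le _ _).trans (add_le_add_left ?_ _)
    refine (norm_sum_le _ _).trans (Finset.sum_le_sum fun k _ => ?_)
    rw [norm_smul]
    exact mul_le_mul_of_nonneg_left (L.bσ (e k) j) (norm_nonneg _)
  have hheadlim : Tendsto (fun j => ∑ i ∈ Finset.range P.N,
      Real.sqrt P.R * ‖Pj j (P.x j i) - P.x j i‖) (U : Filter ℕ) (𝓝 0) := by
    have h15 : Tendsto (fun j => ∑ i ∈ Finset.range P.N,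
      Real.sqrt P.R * ‖Pj j (P.x j i) - P.x j i‖) (U : Filter ℕ)
      (𝓝 (∑ i ∈ Finset.range P.N, Real.sqrt P.R * 0)) :=
      tendsto_finsetSum _ fun i hi => (hhd i hi).const_mul _
    simpa using h15
  have hev1 : ∀ᶠ j in (U : Filter ℕ), ∑ i ∈ Finset.range P.N,
      Real.sqrt P.R * ‖Pj j (P.x j i) - P.x j i‖ < 1 / 100 :=
    hheadlim.eventually_lt_const (by norm_num)
  -- the tail
  obtain ⟨M, u, hu, hue, hPE⟩ := h3 X U Y D H Φ L (1 / 100) (by norm_num) (fun y => (hΦ y).1)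
    m e he
  have huE : ∀ l, u l ∈ E₁ᗮ := by
    intro l
    rw [Submodule.mem_orthogonal]
    intro v hv
    exact orth_span (fun k => hue l k) (hle1 hv)
  have hEu := hE M u hu huE
  have hfin : ∀ᶠ j in (U : Filter ℕ), 1 / 3 ≤ ‖∑ k, L.τ (e k) j (w k j)‖ := by
    filter_upwards [hev1, hPE, hEu] with j hj1 hj2 hj3
    rw [hz j, ← (hsumP j).sum_add_tsum_nat_add P.N]
    set A := ∑ i ∈ Finset.range P.N, P.f j i (Pj j (P.x j i)) with hA
    set A' := ∑ i ∈ Finset.range P.N, P.f j i (P.x j i) with hA'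
    set B := ∑' i, P.f j (i + P.N) (Pj j (P.x j (i + P.N))) with hB
    have hAA : ‖A - A'‖ ≤ 1 / 100 := by
      rw [hA, hA', ← Finset.sum_sub_distrib]
      refine (norm_sum_le _ _).trans (le_trans (Finset.sum_le_sum fun i _ => ?_) hj1.le)
      rw [← map_sub]
      refine ((P.f j i).le_opNorm _).trans ?_
      exact mul_le_mul_of_nonneg_right ((P.hf j i).trans (s_le P j i)) (norm_nonneg _)
    -- the energies
    set t : ℕ → ℝ := fun i => ∑ l, (‖P.f j (i + P.N) (L.σ (u l) j)‖ ^ 2 +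
      ‖L.τ (u l) j (P.x j (i + P.N))‖ ^ 2) with ht
    have hs2 : Summable fun i => P.s j (i + P.N) ^ 2 :=
      (summable_nat_add_iff P.N).2 (P.hs j)
    have htsum : Summable t := by
      refine summable_sum fun l _ => ?_
      obtain ⟨b, hb⟩ := L.bτ (u l)
      refine Summable.add ?_ ?_
      · refine Summable.of_nonneg_of_le (fun i => sq_nonneg _) (fun i => ?_)
          (hs2.mul_left (‖Φ.symm (u l)‖ ^ 2))
        have h16 : ‖P.f j (i + P.N) (L.σ (u l) j)‖ ≤ P.s j (i + P.N) * ‖Φ.symm (u l)‖ :=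
          ((P.f j (i + P.N)).le_opNorm _).trans (mul_le_mul (P.hf j _) (L.bσ (u l) j)
            (norm_nonneg _) (s_nonneg P j _))
        calc ‖P.f j (i + P.N) (L.σ (u l) j)‖ ^ 2 ≤ (P.s j (i + P.N) * ‖Φ.symm (u l)‖) ^ 2 :=
              pow_le_pow_left₀ (norm_nonneg _) h16 2
          _ = _ := by ring
      · refine Summable.of_nonneg_of_le (fun i => sq_nonneg _) (fun i => ?_)
          (hs2.mul_left (b ^ 2))
        have h17 : ‖L.τ (u l) j (P.x j (i + P.N))‖ ≤ b * P.s j (i + P.N) := by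
          refine ((L.τ (u l) j).le_opNorm _).trans ?_
          refine mul_le_mul (hb j) (P.hx j _) (norm_nonneg _) ((norm_nonneg _).trans (hb j))
        calc ‖L.τ (u l) j (P.x j (i + P.N))‖ ^ 2 ≤ (b * P.s j (i + P.N)) ^ 2 :=
              pow_le_pow_left₀ (norm_nonneg _) h17 2
          _ = _ := by ring
    have hBB : ‖B‖ ≤ 14 / 100 := by
      have h18 : ∀ i, ‖P.f j (i + P.N) (Pj j (P.x j (i + P.N)))‖ ≤
          103 / 100 * P.s j (i + P.N) ^ 2 + 50 * t i := by
        intro i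
        have h19 : ‖P.f j (i + P.N) (Pj j (P.x j (i + P.N)))‖ ≤
            P.s j (i + P.N) * ‖Pj j (P.x j (i + P.N))‖ :=
          ((P.f j (i + P.N)).le_opNorm _).trans
            (mul_le_mul_of_nonneg_right (P.hf j _) (norm_nonneg _))
        refine h19.trans ?_
        have ht0 : 0 ≤ t i := Finset.sum_nonneg fun l _ => by positivity
        refine tail_num _ _ _ (s_nonneg P j _) ?_ ht0
        refine (hj2 (P.x j (i + P.N))).trans ?_
        have h20 : ∑ l, ‖L.τ (u l) j (P.x j (i + P.N))‖ ^ 2 ≤ t i :=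
          Finset.sum_le_sum fun l _ => le_add_of_nonneg_left (sq_nonneg _)
        have h21 := Real.sqrt_le_sqrt h20
        have h22 := P.hx j (i + P.N)
        have h23 : (1 + 1 / 100 : ℝ) * ‖P.x j (i + P.N)‖ ≤
            (1 + 1 / 100) * P.s j (i + P.N) :=
          mul_le_mul_of_nonneg_left h22 (by norm_num)
        linarith
      have h24 : HasSum (fun i => 103 / 100 * P.s j (i + P.N) ^ 2 + 50 * t i)
          (103 / 100 * ∑' i, P.s j (i + P.N) ^ 2 + 50 * ∑' i, t i) :=
        (hs2.hasSum.mul_left _).add (htsum.hasSum.mul_left _)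
      refine (tsum_of_norm_bounded h24 h18).trans ?_
      have h25 := P.ht j
      have h26 : ∑' i, t i ≤ 1 / 10000 := hj3
      linarith
    have h27 := hhead j
    have h28 : ‖A'‖ ≤ ‖A + B‖ + ‖A - A'‖ + ‖B‖ := by
      have h29 : A' = (A + B) - (A - A') - B := by ring
      calc ‖A'‖ = ‖(A + B) - (A - A') - B‖ := by rw [← h29]
        _ ≤ ‖(A + B) - (A - A')‖ + ‖B‖ := norm_sub_le _ _
        _ ≤ ‖A + B‖ + ‖A - A'‖ + ‖B‖ := by
            have := norm_sub_le (A + B) (A - A')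
            linarith
    linarith
  exact ge_of_tendsto hlim.norm hfin

end Pool.Agent.Helper40.LS
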